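import Pool.Agent.Helper44.FP.Stmts3
import Pool.Agent.Helper44.FP.Lib

/-! # (CUT) the functions of `e` used in the assembly -/

namespace Pool.Agent.Helper77.FP

open Pool.Agent.Helper44.FP

universe u

namespace CUT

/-- clamp to `[0, 1]` -/
noncomputable def cl (s : ℝ) : ℝ := max 0 (min s 1)

theorem cl_nonneg (s : ℝ) : 0 ≤ cl s := le_max_left _ _

theorem cl_le_one (s : ℝ) : cl s ≤ 1 := max_le zero_le_one (min_le_right _ _)

theorem cl_cont : Continuous cl := by
  unfold cl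
  fun_prop

theorem cl_of_le {s : ℝ} (h : s ≤ 0) : cl s = 0 := by
  unfold cl
  rw [max_eq_left]
  exact (min_le_left _ _).trans h

theorem cl_of_ge {s : ℝ} (h : 1 ≤ s) : cl s = 1 := by
  unfold cl
  rw [min_eq_right h, max_eq_right zero_le_one]

theorem cl_of_mem {s : ℝ} (h0 : 0 ≤ s) (h1 : s ≤ 1) : cl s = s := by
  unfold cl
  rw [min_eq_left h1, max_eq_right h0]

noncomputable def fy (s : ℝ) : ℝ := cl (4 * s - 1)
noncomputable def fz (s : ℝ) : ℝ := cl (4 * s)
noncomputable def fc (s : ℝ) : ℝ := cl (2 * (1 - s))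
noncomputable def fw (s : ℝ) : ℝ := √(1 - fc s ^ 2)
noncomputable def fm (s : ℝ) : ℝ := 1 / max (1 - s) (1 / 2)
noncomputable def fn (s : ℝ) : ℝ := cl (2 - 4 * s) / max (1 - s) (1 / 2)

theorem fy_cont : Continuous fy := cl_cont.comp (by fun_prop)
theorem fz_cont : Continuous fz := cl_cont.comp (by fun_prop)
theorem fc_cont : Continuous fc := cl_cont.comp (by fun_prop)
theorem fw_cont : Continuous fw := by
  unfold fw
  exact Real.continuous_sqrt.comp (continuous_const.sub (fc_cont.pow 2))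

theorem max_pos' (s : ℝ) : 0 < max (1 - s) (1 / 2 : ℝ) := lt_max_of_lt_right (by norm_num)

theorem fm_cont : Continuous fm := by
  unfold fm
  exact continuous_const.div (by fun_prop) (fun s => (max_pos' s).ne')
theorem fn_cont : Continuous fn := by
  unfold fn
  exact (cl_cont.comp (by fun_prop)).div (by fun_prop) (fun s => (max_pos' s).ne')

theorem fc_sq (s : ℝ) : fc s * fc s + fw s * fw s = 1 := by
  unfold fw
  rw [Real.mul_self_sqrt]
  · ring
  · have h0 := cl_nonneg (2 * (1 - s))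
    have h1 := cl_le_one (2 * (1 - s))
    unfold fc
    nlinarith

theorem fw_nonneg (s : ℝ) : 0 ≤ fw s := Real.sqrt_nonneg _

theorem fw_le_one (s : ℝ) : fw s ≤ 1 := by
  have h1 := fc_sq s
  have h2 := fw_nonneg s
  have h3 := mul_self_nonneg (fc s)
  nlinarith

theorem fyfz (s : ℝ) : fy s * fz s = fy s := by
  unfold fy fz
  by_cases h : 1 ≤ 4 * s
  · rw [cl_of_ge h, mul_one]
  · rw [cl_of_le (s := 4 * s - 1) (by linarith), zero_mul]

theorem fyfw (s : ℝ) : fy s * fw s = fw s := by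
  by_cases h : 1 / 2 ≤ s
  · unfold fy
    rw [cl_of_ge (by linarith), one_mul]
  · have h1 : fc s = 1 := cl_of_ge (by linarith)
    unfold fw
    rw [h1]
    norm_num

theorem fz_le {s : ℝ} (h : 0 ≤ s) : fz s ≤ 4 * s := by
  unfold fz cl
  exact max_le (by linarith) (min_le_left _ _)

theorem fm_mul {s : ℝ} (h0 : 0 ≤ s) (h1 : s ≤ 1) : fc s = fm s * (1 - s) := by
  unfold fm fc
  by_cases h : s ≤ 1 / 2
  · rw [max_eq_left (by linarith), cl_of_ge (by linarith)]
    rw [one_div, inv_mul_cancel₀]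
    linarith
  · rw [max_eq_right (by linarith), cl_of_mem (by linarith) (by linarith)]
    norm_num

theorem fn_mul {s : ℝ} (h0 : 0 ≤ s) (h1 : s ≤ 1) : 1 - fy s = fn s * (1 - s) := by
  unfold fn fy
  by_cases h : s ≤ 1 / 2
  · rw [max_eq_left (by linarith), div_mul_cancel₀ _ (by linarith)]
    by_cases h2 : 1 / 4 ≤ s
    · rw [cl_of_mem (by linarith) (by linarith), cl_of_mem (by linarith) (by linarith)]
      ring
    · rw [cl_of_le (by linarith), cl_of_ge (by linarith)]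
      ring
  · rw [cl_of_ge (by linarith), cl_of_le (by linarith)]
    simp

theorem fm_le (s : ℝ) : |fm s| ≤ 2 := by
  unfold fm
  rw [abs_of_nonneg (by positivity), div_le_iff₀ (max_pos' s)]
  have : (1 / 2 : ℝ) ≤ max (1 - s) (1 / 2) := le_max_right _ _
  linarith

theorem fn_le (s : ℝ) : |fn s| ≤ 2 := by
  unfold fn
  rw [abs_of_nonneg (div_nonneg (cl_nonneg _) (max_pos' s).le), div_le_iff₀ (max_pos' s)]
  have : (1 / 2 : ℝ) ≤ max (1 - s) (1 / 2) := le_max_right _ _
  have := cl_le_one (2 - 4 * s)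
  linarith

end CUT

open CUT

theorem CUT_aux (hC : ST_COMM.{u}) : ST_CUT.{u} := by
  intro A _ _ _ M ε hε
  obtain ⟨δ1, hδ1, H1⟩ := hC A fy fy_cont M ε hε
  obtain ⟨δ2, hδ2, H2⟩ := hC A fz fz_cont M ε hε
  obtain ⟨δ3, hδ3, H3⟩ := hC A (fun s => fw s * fw s) (fw_cont.mul fw_cont) M ε hε
  obtain ⟨δ4, hδ4, H4⟩ := hC A (fun s => fc s * fw s) (fc_cont.mul fw_cont) M ε hε
  refine ⟨min (min δ1 δ2) (min δ3 δ4), lt_min (lt_min hδ1 hδ2) (lt_min hδ3 hδ4), ?_⟩
  intro e he0 he1
  have hsa : IsSelfAdjoint e := IsSelfAdjoint.of_nonneg he0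
  have hs0 : ∀ s ∈ spectrum ℝ e, 0 ≤ s := fun s hs => spectrum_nonneg_of_nonneg he0 hs
  have hs1 : ∀ s ∈ spectrum ℝ e, s ≤ 1 := by
    intro s hs
    have h : e ≤ algebraMap ℝ A 1 := by rwa [map_one]
    exact (le_algebraMap_iff_spectrum_le (R := ℝ) (a := e) (r := 1)).1 h s hs
  have h1 : cfc (fun s : ℝ => 1 - s) e = 1 - e := by
    rw [cfc_sub (fun _ : ℝ => (1 : ℝ)) (fun s => s) e, cfc_const_one ℝ e, cfc_id' ℝ e]
  have hbound : ∀ (f g : ℝ → ℝ), Continuous f → Continuous g → (∀ s, |g s| ≤ 2) →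
      (∀ s, 0 ≤ s → s ≤ 1 → f s = g s * (1 - s)) → ∀ D : A, ‖cfc f e * D‖ ≤ 2 * ‖(1 - e) * D‖ := by
    intro f g hf hg hg2 hfg D
    have h2 : cfc f e = cfc g e * (1 - e) := by
      rw [← h1, ← cfc_mul g (fun s => 1 - s) e hg.continuousOn (by fun_prop)]
      exact cfc_congr (fun s hs => hfg s (hs0 s hs) (hs1 s hs))
    rw [h2, mul_assoc]
    refine (norm_mul_le _ _).trans (mul_le_mul_of_nonneg_right ?_ (norm_nonneg _))
    exact norm_cfc_le (by norm_num) (fun s _ => by rw [Real.norm_eq_abs]; exact hg2 s)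
  refine ⟨cfc fy e, cfc fz e, cfc fc e, cfc fw e, cfc_nonneg (fun s _ => cl_nonneg _),
    cfc_le_one _ _ (fun s _ => cl_le_one _), cfc_nonneg (fun s _ => cl_nonneg _),
    cfc_le_one _ _ (fun s _ => cl_le_one _), cfc_nonneg (fun s _ => cl_nonneg _),
    cfc_le_one _ _ (fun s _ => cl_le_one _), cfc_nonneg (fun s _ => fw_nonneg _),
    cfc_le_one _ _ (fun s _ => fw_le_one _), ?_, ?_, ?_, ?_, ?_, ?_, ?_⟩
  · rw [← cfc_mul fy fz e fy_cont.continuousOn fz_cont.continuousOn]
    exact cfc_congr (fun s _ => fyfz s)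
  · rw [← cfc_mul fy fw e fy_cont.continuousOn fw_cont.continuousOn]
    exact cfc_congr (fun s _ => fyfw s)
  · rw [← cfc_mul fc fw e fc_cont.continuousOn fw_cont.continuousOn,
      ← cfc_mul fw fc e fw_cont.continuousOn fc_cont.continuousOn]
    exact cfc_congr (fun s _ => mul_comm _ _)
  · rw [← cfc_mul fc fc e fc_cont.continuousOn fc_cont.continuousOn,
      ← cfc_mul fw fw e fw_cont.continuousOn fw_cont.continuousOn,
      ← cfc_add e (fun s => fc s * fc s) (fun s => fw s * fw s)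
        (fc_cont.mul fc_cont).continuousOn (fw_cont.mul fw_cont).continuousOn]
    have h : cfc (fun s => fc s * fc s + fw s * fw s) e = cfc (fun _ : ℝ => (1 : ℝ)) e :=
      cfc_congr (fun s _ => fc_sq s)
    rw [h, cfc_const_one ℝ e]
  · intro t ht
    rw [← ht.smul]
    apply ht.mono
    have h : (4 : ℝ) • e = cfc (fun s : ℝ => 4 * s) e := (cfc_const_mul_id (4 : ℝ) e).symm
    rw [h]
    exact cfc_mono (fun s hs => fz_le (hs0 s hs)) fz_cont.continuousOn (by fun_prop)
  · intro b hb hcomm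
    have hm1 : ‖e * b - b * e‖ ≤ δ1 := hcomm.trans ((min_le_left _ _).trans (min_le_left _ _))
    have hm2 : ‖e * b - b * e‖ ≤ δ2 := hcomm.trans ((min_le_left _ _).trans (min_le_right _ _))
    have hm3 : ‖e * b - b * e‖ ≤ δ3 := hcomm.trans ((min_le_right _ _).trans (min_le_left _ _))
    have hm4 : ‖e * b - b * e‖ ≤ δ4 := hcomm.trans ((min_le_right _ _).trans (min_le_right _ _))
    refine ⟨H1 e b he0 he1 hb hm1, H2 e b he0 he1 hb hm2, ?_, ?_⟩
    · rw [← cfc_mul fw fw e fw_cont.continuousOn fw_cont.continuousOn]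
      exact H3 e b he0 he1 hb hm3
    · rw [← cfc_mul fc fw e fc_cont.continuousOn fw_cont.continuousOn]
      exact H4 e b he0 he1 hb hm4
  · intro D
    refine ⟨hbound fc fm fc_cont fm_cont fm_le (fun s h0 h1 => fm_mul h0 h1) D, ?_⟩
    have h2 : (1 : A) - cfc fy e = cfc (fun s => 1 - fy s) e := by
      rw [cfc_sub (fun _ : ℝ => (1 : ℝ)) fy e (by fun_prop) fy_cont.continuousOn,
        cfc_const_one ℝ e]
    rw [h2]
    exact hbound (fun s => 1 - fy s) fn (continuous_const.sub fy_cont) fn_cont fn_le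
      (fun s h0 h1 => fn_mul h0 h1) D

end Pool.Agent.Helper77.FP
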