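import Pool.Agent.Helper44.FP.Stmts
import Pool.Agent.Helper44.FP.Lib

/-! # (COMM) continuous functional calculus preserves almost commutation -/

namespace Pool.Agent.Helper77.FP

open Pool.Agent.Helper44.FP Polynomial

universe u

theorem COMM_poly (A : Type u) [CStarAlgebra A] [PartialOrder A] [StarOrderedRing A] (p : ℝ[X]) :
    ∃ C : ℝ, 0 ≤ C ∧ ∀ e b : A, ‖e‖ ≤ 1 →
      ‖aeval e p * b - b * aeval e p‖ ≤ C * ‖e * b - b * e‖ := by
  induction p using Polynomial.induction_on' with
  | add p q hp hq =>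
    obtain ⟨C, hC, H⟩ := hp
    obtain ⟨D, hD, H'⟩ := hq
    refine ⟨C + D, add_nonneg hC hD, fun e b he => ?_⟩
    have h : aeval e (p + q) * b - b * aeval e (p + q) =
        (aeval e p * b - b * aeval e p) + (aeval e q * b - b * aeval e q) := by
      rw [map_add]
      noncomm_ring
    rw [h, add_mul]
    exact (norm_add_le _ _).trans (add_le_add (H e b he) (H' e b he))
  | monomial n a =>
    refine ⟨|a| * n, by positivity, fun e b he => ?_⟩
    have hp : ∀ k : ℕ, ‖e ^ k‖ ≤ 1 := by
      intro k
      induction k with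
      | zero =>
        rw [pow_zero]
        by_cases hA : Nontrivial A
        · exact (CStarRing.norm_one (E := A)).le
        · rw [not_nontrivial_iff_subsingleton] at hA
          rw [Subsingleton.elim (1 : A) 0, norm_zero]
          exact zero_le_one
      | succ k ih =>
        rw [pow_succ]
        refine (norm_mul_le _ _).trans ?_
        nlinarith [norm_nonneg (e ^ k), norm_nonneg e]
    have hk : ∀ k : ℕ, ‖e ^ k * b - b * e ^ k‖ ≤ k * ‖e * b - b * e‖ := by
      intro k
      induction k with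
      | zero => simp
      | succ k ih =>
        have h : e ^ (k + 1) * b - b * e ^ (k + 1) =
            e ^ k * (e * b - b * e) + (e ^ k * b - b * e ^ k) * e := by
          rw [pow_succ]
          noncomm_ring
        rw [h]
        refine (norm_add_le _ _).trans ?_
        have h1 : ‖e ^ k * (e * b - b * e)‖ ≤ ‖e * b - b * e‖ := by
          refine (norm_mul_le _ _).trans ?_
          nlinarith [hp k, norm_nonneg (e * b - b * e)]
        have h2 : ‖(e ^ k * b - b * e ^ k) * e‖ ≤ k * ‖e * b - b * e‖ := by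
          refine (norm_mul_le _ _).trans ?_
          nlinarith [norm_nonneg (e ^ k * b - b * e ^ k), norm_nonneg e]
        push_cast
        linarith
    rw [aeval_monomial]
    have h : algebraMap ℝ A a * e ^ n * b - b * (algebraMap ℝ A a * e ^ n) =
        a • (e ^ n * b - b * e ^ n) := by
      rw [Algebra.algebraMap_eq_smul_one]
      simp only [smul_mul_assoc, one_mul, mul_smul_comm, smul_sub]
    rw [h, norm_smul, Real.norm_eq_abs, mul_assoc]
    exact mul_le_mul_of_nonneg_left (hk n) (abs_nonneg a)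

theorem COMM_proof : ST_COMM.{u} := by
  intro A _ _ _ h hh M ε hε
  have hM : 0 < |M| + 1 := by positivity
  obtain ⟨p, hp⟩ := exists_polynomial_near_of_continuousOn 0 1 h hh.continuousOn
    (ε / (4 * (|M| + 1))) (by positivity)
  obtain ⟨C, hC, HC⟩ := COMM_poly A p
  refine ⟨ε / (2 * (C + 1)), by positivity, ?_⟩
  intro e b he0 he1 hb hcomm
  have hsa : IsSelfAdjoint e := IsSelfAdjoint.of_nonneg he0
  have hs0 : ∀ s ∈ spectrum ℝ e, 0 ≤ s := fun s hs => spectrum_nonneg_of_nonneg he0 hs
  have hs1 : ∀ s ∈ spectrum ℝ e, s ≤ 1 := by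
    intro s hs
    have h : e ≤ algebraMap ℝ A 1 := by rwa [map_one]
    exact (le_algebraMap_iff_spectrum_le (R := ℝ) (a := e) (r := 1)).1 h s hs
  have hn : ‖e‖ ≤ 1 := (CStarAlgebra.norm_le_one_iff_of_nonneg e he0).2 he1
  have h1 : cfc (fun x => p.eval x) e = aeval e p := cfc_polynomial p e
  have h2 : ‖cfc h e - aeval e p‖ ≤ ε / (4 * (|M| + 1)) := by
    rw [← h1, ← cfc_sub h (fun x => p.eval x) e hh.continuousOn (by fun_prop)]
    refine norm_cfc_le (by positivity) (fun s hs => ?_)
    rw [Real.norm_eq_abs, abs_sub_comm]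
    exact (hp s ⟨hs0 s hs, hs1 s hs⟩).le
  have h3 : cfc h e * b - b * cfc h e = (aeval e p * b - b * aeval e p) +
      ((cfc h e - aeval e p) * b - b * (cfc h e - aeval e p)) := by noncomm_ring
  have h4 := HC e b hn
  have h5 : ‖(cfc h e - aeval e p) * b - b * (cfc h e - aeval e p)‖ ≤
      2 * (ε / (4 * (|M| + 1)) * (|M| + 1)) := by
    have hb' : ‖b‖ ≤ |M| + 1 := hb.trans ((le_abs_self M).trans (by linarith))
    refine (norm_sub_le _ _).trans ?_
    have h6 : ‖(cfc h e - aeval e p) * b‖ ≤ ε / (4 * (|M| + 1)) * (|M| + 1) :=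
      (norm_mul_le _ _).trans (mul_le_mul h2 hb' (norm_nonneg _) (by positivity))
    have h7 : ‖b * (cfc h e - aeval e p)‖ ≤ ε / (4 * (|M| + 1)) * (|M| + 1) := by
      refine (norm_mul_le _ _).trans ?_
      rw [mul_comm]
      exact mul_le_mul h2 hb' (norm_nonneg _) (by positivity)
    linarith
  have h8 : 2 * (ε / (4 * (|M| + 1)) * (|M| + 1)) = ε / 2 := by
    field_simp
    norm_num
  have h9 : C * ‖e * b - b * e‖ ≤ ε / 2 := by
    have h10 : C * ‖e * b - b * e‖ ≤ (C + 1) * (ε / (2 * (C + 1))) := by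
      refine mul_le_mul (by linarith) hcomm (norm_nonneg _) (by linarith)
    have h11 : (C + 1) * (ε / (2 * (C + 1))) = ε / 2 := by
      field_simp
    linarith
  rw [h3]
  refine (norm_add_le _ _).trans ?_
  linarith

end Pool.Agent.Helper77.FP
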