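import Pool.Agent.Helper44.FP.Stmts
import Pool.Agent.Helper44.FP.Lib

/-! # (POLAR) an almost unitary is close to a unitary -/

namespace Pool.Agent.Helper77.FP

open Pool.Agent.Helper44.FP

universe u

theorem POLAR_proof : ST_POLAR.{u} := by
  intro A _ _ _ ε hε
  rcases subsingleton_or_nontrivial A with hA | hA
  · exact ⟨1, one_pos, fun x _ _ => ⟨1, one_mem _, by
      rw [Subsingleton.elim ((1 : A) - x) 0, norm_zero]; exact hε.le⟩⟩
  refine ⟨min (1 / 2) (ε / 4), lt_min (by norm_num) (by positivity), ?_⟩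
  intro x hx1 hx2
  set δ : ℝ := min (1 / 2) (ε / 4) with hδdef
  have hδ0 : 0 < δ := lt_min (by norm_num) (by positivity)
  have hδ1 : δ ≤ 1 / 2 := min_le_left _ _
  have hδ2 : δ ≤ ε / 4 := min_le_right _ _
  -- general facts
  have key : ∀ a : A, IsSelfAdjoint a → ‖a - 1‖ ≤ δ → ∀ s ∈ spectrum ℝ a, |s - 1| ≤ δ := by
    intro a ha h s hs
    have h1 : cfc (fun s : ℝ => s - 1) a = a - 1 := by
      rw [cfc_sub (fun s : ℝ => s) (fun _ => (1 : ℝ)) a, cfc_const_one ℝ a, cfc_id' ℝ a]
    rw [← h1, norm_cfc_le_iff _ _ hδ0.le] at h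
    exact h s hs
  have unit : ∀ a : A, ‖a - 1‖ ≤ δ → IsUnit a := by
    intro a h
    have h1 : IsUnit (1 - (1 - a)) := by
      refine (Units.oneSub (1 - a) ?_).isUnit
      rw [norm_sub_rev]
      linarith
    rwa [sub_sub_cancel] at h1
  have hsa : IsSelfAdjoint (star x * x) := IsSelfAdjoint.star_mul_self x
  have hsp := key _ hsa hx1
  have hu1 : IsUnit (star x * x) := unit _ hx1
  have hu2 : IsUnit (x * star x) := unit _ hx2
  have hux : IsUnit x := by
    obtain ⟨u1, hu1⟩ := hu1
    obtain ⟨u2, hu2⟩ := hu2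
    have h1 : ((↑u1⁻¹ : A) * star x) * x = 1 := by
      rw [mul_assoc, ← hu1, Units.inv_mul]
    have h2 : x * (star x * (↑u2⁻¹ : A)) = 1 := by
      rw [← mul_assoc, ← hu2, Units.mul_inv]
    have h3 := left_inv_eq_right_inv h1 h2
    exact ⟨⟨x, star x * (↑u2⁻¹ : A), h2, by rw [← h3]; exact h1⟩, rfl⟩
  have hpos : ∀ s ∈ spectrum ℝ (star x * x), 1 / 2 ≤ s := by
    intro s hs
    have := abs_le.1 (hsp s hs)
    linarith [this.1]
  have hgc : ContinuousOn (fun s : ℝ => 1 / √s) (spectrum ℝ (star x * x)) := by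
    refine continuousOn_const.div Real.continuous_sqrt.continuousOn (fun s hs => ?_)
    have := hpos s hs
    exact (Real.sqrt_pos.2 (by linarith)).ne'
  set g : A := cfc (fun s : ℝ => 1 / √s) (star x * x) with hg
  have hgs : IsSelfAdjoint g := cfc_predicate _ _
  have hg1 : g * (star x * x) * g = 1 := by
    have h1 : star x * x = cfc (fun s : ℝ => s) (star x * x) := (cfc_id' ℝ (star x * x)).symm
    have h2 : g * (star x * x) * g = cfc (fun s : ℝ => 1 / √s * s * (1 / √s)) (star x * x) := by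
      rw [cfc_mul (fun s : ℝ => 1 / √s * s) (fun s => 1 / √s) _ (hgc.mul continuousOn_id) hgc,
        cfc_mul (fun s : ℝ => 1 / √s) (fun s => s) _ hgc continuousOn_id, ← h1]
    rw [h2, ← cfc_const_one ℝ (star x * x)]
    refine cfc_congr (fun s hs => ?_)
    have h3 : 0 < s := by linarith [hpos s hs]
    have h4 : 0 < √s := Real.sqrt_pos.2 h3
    have h5 : √s * √s = s := Real.mul_self_sqrt h3.le
    change 1 / √s * s * (1 / √s) = 1
    rw [div_mul_eq_mul_div, one_mul, div_mul_div_comm, mul_one, h5, div_self h3.ne']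
  have hug : IsUnit g := by
    have h1 : cfc (fun s : ℝ => √s) (star x * x) * g = 1 := by
      rw [hg, ← cfc_mul (fun s : ℝ => √s) (fun s => 1 / √s) _ (by fun_prop) hgc,
        ← cfc_const_one ℝ (star x * x)]
      refine cfc_congr (fun s hs => ?_)
      have h3 : 0 < s := by linarith [hpos s hs]
      have h4 : 0 < √s := Real.sqrt_pos.2 h3
      change √s * (1 / √s) = 1
      field_simp
    have h2 : g * cfc (fun s : ℝ => √s) (star x * x) = 1 := by
      rw [hg, ← cfc_mul (fun s : ℝ => 1 / √s) (fun s => √s) _ hgc (by fun_prop),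
        ← cfc_const_one ℝ (star x * x)]
      refine cfc_congr (fun s hs => ?_)
      have h3 : 0 < s := by linarith [hpos s hs]
      have h4 : 0 < √s := Real.sqrt_pos.2 h3
      change 1 / √s * √s = 1
      field_simp
    exact ⟨⟨g, _, h2, h1⟩, rfl⟩
  have hw1 : star (x * g) * (x * g) = 1 := by
    rw [star_mul, hgs.star_eq]
    calc g * star x * (x * g) = g * (star x * x) * g := by noncomm_ring
      _ = 1 := hg1
  have hw2 : (x * g) * star (x * g) = 1 := by
    obtain ⟨u, hu⟩ := hux.mul hug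
    rw [← hu] at hw1 ⊢
    have h3 : star (u : A) = ↑u⁻¹ := by
      calc star (u : A) = star (u : A) * (↑u * ↑u⁻¹) := by rw [Units.mul_inv, mul_one]
        _ = ↑u⁻¹ := by rw [← mul_assoc, hw1, one_mul]
    rw [h3, Units.mul_inv]
  refine ⟨x * g, Unitary.mem_iff.2 ⟨hw1, hw2⟩, ?_⟩
  have hxn : ‖x‖ ≤ 2 := by
    have h1 : ‖star x * x‖ ≤ 3 / 2 := by
      have h2 : star x * x = (star x * x - 1) + 1 := by abel
      rw [h2]
      refine (norm_add_le _ _).trans ?_
      rw [CStarRing.norm_one]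
      linarith
    rw [CStarRing.norm_star_mul_self] at h1
    nlinarith [norm_nonneg x]
  have hgn : ‖g - 1‖ ≤ 2 * δ := by
    have h1 : g - 1 = cfc (fun s : ℝ => 1 / √s - 1) (star x * x) := by
      rw [cfc_sub (fun s : ℝ => 1 / √s) (fun _ => (1 : ℝ)) _ hgc (by fun_prop),
        cfc_const_one ℝ (star x * x)]
    rw [h1]
    refine norm_cfc_le (by linarith) (fun s hs => ?_)
    have h3 : 0 < s := by linarith [hpos s hs]
    have h4 : 0 < √s := Real.sqrt_pos.2 h3
    have h5 : √s * √s = s := Real.mul_self_sqrt h3.le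
    have h6 : 1 / 2 ≤ √s := by
      have h7 := hpos s hs
      by_contra hc
      rw [not_le] at hc
      nlinarith
    have h7 := abs_le.1 (hsp s hs)
    rw [Real.norm_eq_abs]
    have h8 : 1 / √s - 1 = (1 - √s) / √s := by
      field_simp
    rw [h8, abs_div, abs_of_pos h4, div_le_iff₀ h4]
    have h9 : |1 - √s| ≤ δ := by
      rw [abs_le]
      constructor
      · nlinarith
      · nlinarith
    nlinarith
  have h : x * g - x = x * (g - 1) := by noncomm_ring
  rw [h]
  refine (norm_mul_le _ _).trans ?_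
  nlinarith [norm_nonneg x, norm_nonneg (g - 1)]

end Pool.Agent.Helper77.FP
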