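import Pool.Agent.Helper44.FP.Stmts2
import Pool.Agent.Helper44.FP.Lib

/-! # (WCD) weak comparison from the free norm estimate -/

namespace Pool.Agent.Helper77.FP

open Pool.Agent.Helper44.FP

universe u

theorem WCD_proof : ST_WCD.{u} := by
  intro A _ _ _ t ht hFN ε hε δ hδ
  refine ⟨ε / 2 * (δ / 32) ^ 2, by positivity, √(2 / δ), Real.sqrt_nonneg _, ?_⟩
  intro b c hb0 hb1 hc0 hc1 htb htc
  have hε1 : 0 < ε / 2 := by positivity
  have hbsa : IsSelfAdjoint b := IsSelfAdjoint.of_nonneg hb0
  have hcsa : IsSelfAdjoint c := IsSelfAdjoint.of_nonneg hc0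
  have hs0 : ∀ s ∈ spectrum ℝ b, 0 ≤ s := fun s hs => spectrum_nonneg_of_nonneg hb0 hs
  have hs1 : ∀ s ∈ spectrum ℝ b, s ≤ 1 := by
    intro s hs
    have h : b ≤ algebraMap ℝ A 1 := by rwa [map_one]
    exact (le_algebraMap_iff_spectrum_le (R := ℝ) (a := b) (r := 1)).1 h s hs
  have hcn : ‖c‖ ≤ 1 := (CStarAlgebra.norm_le_one_iff_of_nonneg c hc0).2 hc1
  have hbid : cfc (fun s : ℝ => s) b = b := cfc_id' ℝ b
  -- the function `P`
  set fP : ℝ → ℝ := fun s => min (s / (ε / 2)) 1 with hfP
  have fPc : Continuous fP := by rw [hfP]; fun_prop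
  set P : A := cfc fP b with hP
  have hPsa : IsSelfAdjoint P := cfc_predicate _ _
  have fP0 : ∀ s, 0 ≤ s → 0 ≤ fP s := fun s hs => le_min (by positivity) zero_le_one
  have fP1 : ∀ s, fP s ≤ 1 := fun s => min_le_right _ _
  have hP0 : 0 ≤ P := cfc_nonneg (fun s hs => fP0 s (hs0 s hs))
  have hP1 : P ≤ 1 := cfc_le_one _ _ (fun s _ => fP1 s)
  have hPn : ‖P‖ ≤ 1 := (CStarAlgebra.norm_le_one_iff_of_nonneg P hP0).2 hP1
  have htP : t (P * P) ≤ (δ / 32) ^ 2 := by
    have h1 : P * P ≤ (1 / (ε / 2)) • b := by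
      have h2 : (1 / (ε / 2)) • b = cfc (fun s : ℝ => 1 / (ε / 2) * s) b :=
        (cfc_const_mul_id (1 / (ε / 2)) b).symm
      rw [h2, hP, ← cfc_mul fP fP b fPc.continuousOn fPc.continuousOn]
      refine cfc_mono (fun s hs => ?_) (fPc.mul fPc).continuousOn (by fun_prop)
      have h3 := fP0 s (hs0 s hs)
      have h4 := fP1 s
      have h5 : fP s ≤ s / (ε / 2) := min_le_left _ _
      have h6 : 1 / (ε / 2) * s = s / (ε / 2) := by ring
      rw [h6]
      nlinarith
    have h2 := ht.mono h1
    rw [ht.smul] at h2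
    refine h2.trans ?_
    have h3 : 1 / (ε / 2) * t b ≤ 1 / (ε / 2) * (ε / 2 * (δ / 32) ^ 2) :=
      mul_le_mul_of_nonneg_left htb (by positivity)
    refine h3.trans (le_of_eq ?_)
    field_simp
  obtain ⟨w, hw, hwle⟩ := hFN P c hPsa hcsa hPn hcn (δ / 4) (by positivity)
  have hwle2 : ‖P * (w * c * star w - t c • (1 : A)) * P‖ ≤ δ / 2 := by
    refine hwle.trans ?_
    have h1 : √(t (P * P)) ≤ δ / 32 := by
      rw [← Real.sqrt_sq (show 0 ≤ δ / 32 by positivity)]
      exact Real.sqrt_le_sqrt htP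
    linarith
  -- the function `r`
  set fr : ℝ → ℝ := fun s => √(max (s - ε / 2) 0) with hfr
  have frc : Continuous fr := by
    rw [hfr]
    exact Real.continuous_sqrt.comp (by fun_prop)
  set r : A := cfc fr b with hr
  have hrsa : IsSelfAdjoint r := cfc_predicate _ _
  have hfr2 : ∀ s, fr s * fr s = max (s - ε / 2) 0 := fun s =>
    Real.mul_self_sqrt (le_max_right _ _)
  have hrP : r * P = r := by
    rw [hr, hP, ← cfc_mul fr fP b frc.continuousOn fPc.continuousOn]
    refine cfc_congr (fun s hs => ?_)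
    change fr s * fP s = fr s
    by_cases h : s ≤ ε / 2
    · have h1 : fr s = 0 := by
        rw [hfr]
        change √(max (s - ε / 2) 0) = 0
        rw [max_eq_right (by linarith), Real.sqrt_zero]
      rw [h1, zero_mul]
    · have h1 : fP s = 1 := by
        rw [hfP]
        change min (s / (ε / 2)) 1 = 1
        apply min_eq_right
        rw [le_div_iff₀ hε1]
        linarith
      rw [h1, mul_one]
  have hPr : P * r = r := by
    have h := congrArg star hrP
    rwa [star_mul, hrsa.star_eq, hPsa.star_eq] at h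
  have hrn : ‖r‖ ≤ 1 := by
    refine norm_cfc_le zero_le_one (fun s hs => ?_)
    rw [Real.norm_eq_abs, abs_of_nonneg (Real.sqrt_nonneg _)]
    rw [Real.sqrt_le_one]
    exact max_le (by linarith [hs1 s hs]) zero_le_one
  have hrb : ‖r * r - b‖ ≤ ε / 2 := by
    have h1 : r * r - b = cfc (fun s : ℝ => fr s * fr s - s) b := by
      rw [cfc_sub (fun s : ℝ => fr s * fr s) (fun s => s) b (frc.mul frc).continuousOn
        (by fun_prop), cfc_mul fr fr b frc.continuousOn frc.continuousOn, hbid]
    rw [h1]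
    refine norm_cfc_le hε1.le (fun s hs => ?_)
    rw [hfr2, Real.norm_eq_abs, abs_le]
    have h2 := hs0 s hs
    constructor
    · have := le_max_left (s - ε / 2) 0
      linarith
    · have : max (s - ε / 2) 0 ≤ s := max_le (by linarith) h2
      linarith
  -- the element `N`
  set N : A := r * (w * c * star w) * r with hN
  have hwc : 0 ≤ w * c * star w := by
    have := star_left_conjugate_nonneg hc0 (star w)
    rwa [star_star] at this
  have hN0 : 0 ≤ N := by
    have := star_left_conjugate_nonneg hwc r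
    rwa [hrsa.star_eq] at this
  have hNsa : IsSelfAdjoint N := IsSelfAdjoint.of_nonneg hN0
  have hNr : (δ / 2) • (r * r) ≤ N := by
    set X : A := P * (w * c * star w - t c • (1 : A)) * P with hX
    have hXsa : IsSelfAdjoint X := by
      have h1 : IsSelfAdjoint (w * c * star w - t c • (1 : A)) :=
        (IsSelfAdjoint.of_nonneg hwc).sub ((IsSelfAdjoint.all (t c)).smul (IsSelfAdjoint.one A))
      have h2 := h1.conjugate P
      rwa [hPsa.star_eq] at h2
    have h3 : -(algebraMap ℝ A (δ / 2)) ≤ X := by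
      refine le_trans ?_ hXsa.neg_algebraMap_norm_le_self
      exact neg_le_neg (algebraMap_mono A hwle2)
    have h4 := star_left_conjugate_le_conjugate h3 r
    rw [hrsa.star_eq] at h4
    have h5 : r * X * r = N - t c • (r * r) := by
      rw [hX]
      calc r * (P * (w * c * star w - t c • (1 : A)) * P) * r
          = (r * P) * (w * c * star w - t c • (1 : A)) * (P * r) := by noncomm_ring
        _ = r * (w * c * star w - t c • (1 : A)) * r := by rw [hrP, hPr]
        _ = N - t c • (r * r) := by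
          rw [hN, mul_sub, sub_mul, mul_smul_comm, mul_one, smul_mul_assoc]
    have h6 : r * -(algebraMap ℝ A (δ / 2)) * r = -((δ / 2) • (r * r)) := by
      rw [Algebra.algebraMap_eq_smul_one, mul_neg, neg_mul, mul_smul_comm, mul_one, smul_mul_assoc]
    rw [h5, h6] at h4
    have h7 : (δ / 2) • (r * r) ≤ (t c - δ / 2) • (r * r) := by
      apply smul_le_smul_of_nonneg_right (by linarith)
      exact hrsa.mul_self_nonneg
    refine h7.trans ?_
    rw [sub_smul]
    have h8 := add_le_add_right h4 (t c • (r * r))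
    have h9 : t c • (r * r) + -((δ / 2) • (r * r)) = t c • (r * r) - (δ / 2) • (r * r) := by abel
    have h10 : t c • (r * r) + (N - t c • (r * r)) = N := by abel
    rwa [h9, h10] at h8
  -- the function `G`
  set k : ℝ := δ / 2 * (ε / 2) with hk
  have hk0 : 0 < k := by positivity
  have hNs0 : ∀ s ∈ spectrum ℝ N, 0 ≤ s := fun s hs => spectrum_nonneg_of_nonneg hN0 hs
  set fG : ℝ → ℝ := fun s => 1 / √(s + k) with hfG
  have fGc : ContinuousOn fG (spectrum ℝ N) := by
    refine continuousOn_const.div (by fun_prop) (fun s hs => ?_)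
    have := hNs0 s hs
    exact (Real.sqrt_pos.2 (by linarith)).ne'
  set G : A := cfc fG N with hG
  have hGsa : IsSelfAdjoint G := cfc_predicate _ _
  have hNid : cfc (fun s : ℝ => s) N = N := cfc_id' ℝ N
  have hfG2 : ∀ s ∈ spectrum ℝ N, fG s * fG s = 1 / (s + k) := by
    intro s hs
    have h1 : 0 < s + k := by linarith [hNs0 s hs]
    change 1 / √(s + k) * (1 / √(s + k)) = 1 / (s + k)
    rw [div_mul_div_comm, mul_one, Real.mul_self_sqrt h1.le]
  have hGNG : G * N * G = cfc (fun s : ℝ => fG s * s * fG s) N := by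
    rw [cfc_mul (fun s : ℝ => fG s * s) fG N (fGc.mul continuousOn_id) fGc,
      cfc_mul fG (fun s : ℝ => s) N fGc continuousOn_id, hNid]
  have hGNG1 : G * N * G ≤ 1 := by
    rw [hGNG]
    refine cfc_le_one _ _ (fun s hs => ?_)
    have h1 := hNs0 s hs
    have h2 : fG s * s * fG s = s / (s + k) := by
      rw [mul_right_comm, hfG2 s hs]
      ring
    rw [h2, div_le_one (by linarith)]
    linarith
  have hdiff : 1 - G * N * G = k • (G * G) := by
    have h1 : k • (G * G) = cfc (fun s : ℝ => k * (fG s * fG s)) N := by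
      rw [cfc_const_mul k (fun s => fG s * fG s) N (fGc.mul fGc), cfc_mul fG fG N fGc fGc]
    have h2 : 1 - G * N * G = cfc (fun s : ℝ => 1 - fG s * s * fG s) N := by
      rw [hGNG, cfc_sub (fun _ : ℝ => (1 : ℝ)) (fun s => fG s * s * fG s) N (by fun_prop)
        ((fGc.mul continuousOn_id).mul fGc), cfc_const_one ℝ N]
    rw [h1, h2]
    refine cfc_congr (fun s hs => ?_)
    have h3 : 0 < s + k := by linarith [hNs0 s hs]
    change 1 - fG s * s * fG s = k * (fG s * fG s)
    have h4 : fG s * s * fG s = s * (fG s * fG s) := by ring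
    rw [h4, hfG2 s hs]
    field_simp
    ring
  have hrG : ‖r * G‖ * ‖r * G‖ ≤ 2 / δ := by
    rw [← CStarRing.norm_star_mul_self]
    have h1 : star (r * G) * (r * G) = G * (r * r) * G := by
      rw [star_mul, hrsa.star_eq, hGsa.star_eq]
      noncomm_ring
    have h2 : 0 ≤ star (r * G) * (r * G) := star_mul_self_nonneg _
    rw [CStarAlgebra.norm_le_iff_le_algebraMap _ (by positivity) h2, h1]
    have h3 : r * r ≤ (2 / δ) • N := by
      have h4 := smul_le_smul_of_nonneg_left hNr (show (0 : ℝ) ≤ 2 / δ by positivity)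
      rw [smul_smul] at h4
      have h5 : 2 / δ * (δ / 2) = 1 := by field_simp
      rwa [h5, one_smul] at h4
    have h6 := star_left_conjugate_le_conjugate h3 G
    rw [hGsa.star_eq] at h6
    refine h6.trans ?_
    have h7 : G * ((2 / δ) • N) * G = (2 / δ) • (G * N * G) := by
      rw [mul_smul_comm, smul_mul_assoc]
    rw [h7, Algebra.algebraMap_eq_smul_one]
    exact smul_le_smul_of_nonneg_left hGNG1 (by positivity)
  -- the element `R`
  have hwn : ‖star w‖ ≤ 1 := by
    rw [norm_star]
    rcases subsingleton_or_nontrivial A with hA | hA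
    · rw [Subsingleton.elim w 0, norm_zero]
      exact zero_le_one
    · exact (CStarRing.norm_of_mem_unitary hw).le
  refine ⟨star w * r * G * r, ?_, ?_⟩
  · have h1 : ‖r * G‖ ≤ √(2 / δ) := by
      rw [← Real.sqrt_mul_self (norm_nonneg (r * G))]
      exact Real.sqrt_le_sqrt hrG
    have h2 : star w * r * G * r = star w * (r * G) * r := by noncomm_ring
    rw [h2]
    have h3 : ‖star w * (r * G) * r‖ ≤ ‖star w‖ * ‖r * G‖ * ‖r‖ :=
      (norm_mul_le _ _).trans (mul_le_mul_of_nonneg_right (norm_mul_le _ _) (norm_nonneg _))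
    have h4 : ‖star w‖ * ‖r * G‖ ≤ 1 * √(2 / δ) :=
      mul_le_mul hwn h1 (norm_nonneg _) zero_le_one
    have h5 : ‖star w‖ * ‖r * G‖ * ‖r‖ ≤ 1 * √(2 / δ) * 1 :=
      mul_le_mul h4 hrn (norm_nonneg _) (by positivity)
    linarith
  · have h1 : star (star w * r * G * r) * c * (star w * r * G * r) = r * (G * N * G) * r := by
      rw [hN]
      simp only [star_mul, star_star, hrsa.star_eq, hGsa.star_eq]
      noncomm_ring
    have h2 : r * r - r * (G * N * G) * r = k • ((r * G) * star (r * G)) := by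
      have h3 : r * r - r * (G * N * G) * r = r * (1 - G * N * G) * r := by noncomm_ring
      rw [h3, hdiff, star_mul, hrsa.star_eq, hGsa.star_eq, mul_smul_comm, smul_mul_assoc]
      congr 1
      noncomm_ring
    have h4 : ‖r * r - r * (G * N * G) * r‖ ≤ ε / 2 := by
      rw [h2, norm_smul, CStarRing.norm_self_mul_star, Real.norm_eq_abs, abs_of_pos hk0, hk]
      have h5 : δ / 2 * (ε / 2) * (‖r * G‖ * ‖r * G‖) ≤ δ / 2 * (ε / 2) * (2 / δ) :=
        mul_le_mul_of_nonneg_left hrG (by positivity)
      refine h5.trans (le_of_eq ?_)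
      field_simp
    rw [h1]
    have h5 : r * (G * N * G) * r - b = (r * r - b) - (r * r - r * (G * N * G) * r) := by abel
    rw [h5]
    refine (norm_sub_le _ _).trans ?_
    linarith

end Pool.Agent.Helper77.FP
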