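import Pool.Agent.Helper44.FP.Stmts
import Pool.Agent.Helper44.FP.Lib

/-! # (COMB) almost partition into disjoint pieces with small oscillation -/

namespace Pool.Agent.Helper77.FP

open Pool.Agent.Helper44.FP

universe v

namespace COMB

/-- trapezoid function on `[l, l + 1]` -/
noncomputable def h (S : ℝ) (l : ℤ) (u : ℝ) : ℝ :=
  max 0 (min 1 (min (2 * S * (u - l)) (2 * S * (l + 1 - u))))

theorem h_cont (S : ℝ) (l : ℤ) : Continuous (h S l) := by
  unfold h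
  fun_prop

theorem h_nonneg (S : ℝ) (l : ℤ) (u : ℝ) : 0 ≤ h S l u := le_max_left _ _

theorem h_le_one (S : ℝ) (l : ℤ) (u : ℝ) : h S l u ≤ 1 := max_le zero_le_one (min_le_left _ _)

theorem h_ne {S : ℝ} (hS : 0 < S) {l : ℤ} {u : ℝ} (hu : h S l u ≠ 0) : (l : ℝ) < u ∧ u < l + 1 := by
  have h1 : 0 < min 1 (min (2 * S * (u - l)) (2 * S * (l + 1 - u))) := by
    by_contra hc
    rw [not_lt] at hc
    exact hu (max_eq_left hc)
  rw [lt_min_iff, lt_min_iff] at h1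
  obtain ⟨-, h2, h3⟩ := h1
  have h4 : 0 < 2 * S := by linarith
  have h5 := (mul_pos_iff_of_pos_left h4).1 h2
  have h6 := (mul_pos_iff_of_pos_left h4).1 h3
  constructor <;> linarith

theorem h_floor {S : ℝ} (hS : 0 < S) {l : ℤ} {u : ℝ} (hu : h S l u ≠ 0) : l = ⌊u⌋ := by
  obtain ⟨h1, h2⟩ := h_ne hS hu
  exact (Int.floor_eq_iff.2 ⟨h1.le, h2⟩).symm

theorem h_mul {S : ℝ} (hS : 0 < S) {l m : ℤ} (hlm : l ≠ m) (u : ℝ) : h S l u * h S m u = 0 := by
  by_contra hc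
  have h1 := h_floor hS (left_ne_zero_of_mul hc)
  have h2 := h_floor hS (right_ne_zero_of_mul hc)
  exact hlm (h1.trans h2.symm)

theorem h_sum {S : ℝ} (hS : 0 < S) (L : ℕ) (u : ℝ) (h1 : -(L : ℝ) ≤ u) (h2 : u < L) :
    ∑ l : Fin (2 * L), h S ((l : ℕ) - L : ℤ) u = h S ⌊u⌋ u := by
  have h3 : -(L : ℤ) ≤ ⌊u⌋ := by
    rw [Int.le_floor]
    push_cast
    exact h1
  have h4 : ⌊u⌋ < (L : ℤ) := by
    rw [Int.floor_lt]
    exact_mod_cast h2
  have h5 : (⌊u⌋ + L).toNat < 2 * L := by omega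
  have h6 : (((⌊u⌋ + L).toNat : ℕ) : ℤ) - L = ⌊u⌋ := by omega
  rw [Finset.sum_eq_single (⟨(⌊u⌋ + L).toNat, h5⟩ : Fin (2 * L))]
  · change h S (((⌊u⌋ + L).toNat : ℕ) - L : ℤ) u = _
    rw [h6]
  · intro b _ hb
    by_contra hc
    have h7 := h_floor hS hc
    apply hb
    apply Fin.ext
    change (b : ℕ) = (⌊u⌋ + L).toNat
    omega
  · intro hc
    exact absurd (Finset.mem_univ _) hc

theorem h_ne_one {S : ℝ} (hS : 0 < S) {u : ℝ} (hu : h S ⌊u⌋ u ≠ 1) :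
    ∃ m : ℤ, 2 * S * |u - m| < 1 := by
  by_contra hc
  push Not at hc
  apply hu
  have h1 := hc ⌊u⌋
  have h2 := hc (⌊u⌋ + 1)
  have h3 := Int.floor_le u
  have h4 := Int.lt_floor_add_one u
  rw [abs_of_nonneg (by linarith)] at h1
  push_cast at h2
  rw [abs_of_nonpos (by linarith)] at h2
  unfold h
  rw [min_eq_left, max_eq_right zero_le_one]
  refine le_min h1 ?_
  have h5 : -(u - (⌊u⌋ + 1 : ℝ)) = ⌊u⌋ + 1 - u := by ring
  rwa [h5] at h2

/-- at most one shift is bad -/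
theorem one_bad {S : ℕ} (v : ℝ) (q r : Fin S)
    (hq : ∃ m : ℤ, 2 * (S : ℝ) * |v - (q : ℕ) / (S : ℝ) - m| < 1)
    (hr : ∃ m : ℤ, 2 * (S : ℝ) * |v - (r : ℕ) / (S : ℝ) - m| < 1) : q = r := by
  obtain ⟨m, hm⟩ := hq
  obtain ⟨n, hn⟩ := hr
  have hS : 0 < S := q.pos
  have hSR : (0 : ℝ) < S := by exact_mod_cast hS
  have h1 : ∀ (i : ℕ) (k : ℤ), 2 * (S : ℝ) * |v - i / (S : ℝ) - k| < 1 →
      |v * S - ((i : ℤ) + S * k : ℤ)| < 1 / 2 := by
    intro i k hk
    have h2 : v * S - ((i : ℤ) + S * k : ℤ) = S * (v - i / (S : ℝ) - k) := by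
      push_cast
      field_simp
      ring
    rw [h2, abs_mul, abs_of_pos hSR]
    linarith
  have h2 := abs_lt.1 (h1 _ _ hm)
  have h3 := abs_lt.1 (h1 _ _ hn)
  have h4 : (((q : ℕ) : ℤ) + S * m : ℤ) = (((r : ℕ) : ℤ) + S * n : ℤ) := by
    have h5 : ((((q : ℕ) : ℤ) + S * m : ℤ) : ℝ) - ((((r : ℕ) : ℤ) + S * n : ℤ) : ℝ) < 1 := by
      linarith [h2.1, h3.2]
    have h6 : -1 < ((((q : ℕ) : ℤ) + S * m : ℤ) : ℝ) - ((((r : ℕ) : ℤ) + S * n : ℤ) : ℝ) := by
      linarith [h2.2, h3.1]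
    rw [← Int.cast_sub] at h5 h6
    have h7 : (((q : ℕ) : ℤ) + S * m) - (((r : ℕ) : ℤ) + S * n) < 1 := by exact_mod_cast h5
    have h8 : -1 < (((q : ℕ) : ℤ) + S * m) - (((r : ℕ) : ℤ) + S * n) := by exact_mod_cast h6
    omega
  apply Fin.ext
  have h5 : ((q : ℕ) : ℤ) % S = ((r : ℕ) : ℤ) % S := by
    have h6 : (((q : ℕ) : ℤ) + S * m : ℤ) % S = (((r : ℕ) : ℤ) + S * n : ℤ) % S := by rw [h4]
    rwa [Int.add_mul_emod_self_left, Int.add_mul_emod_self_left] at h6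
  rw [Int.emod_eq_of_lt (by positivity) (by exact_mod_cast q.2),
    Int.emod_eq_of_lt (by positivity) (by exact_mod_cast r.2)] at h5
  exact_mod_cast h5

section

variable {X : Type v} [TopologicalSpace X] [CompactSpace X]

/-- the property proved by induction -/
def Good (μ : C(X, ℝ) → ℝ) (F : Finset C(X, ℝ)) (ε η : ℝ) : Prop :=
  ∃ (J : ℕ) (g : Fin J → C(X, ℝ)), (∀ j, 0 ≤ g j) ∧ ∑ j, g j ≤ 1 ∧
    (∀ i j, i ≠ j → g i * g j = 0) ∧ 1 - η ≤ μ (∑ j, g j) ∧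
    ∀ f ∈ F, ∀ j x y, g j x ≠ 0 → g j y ≠ 0 → |f x - f y| ≤ ε

theorem good_of {ι : Type} [Fintype ι] (μ : C(X, ℝ) → ℝ) (F : Finset C(X, ℝ)) (ε η : ℝ)
    (g : ι → C(X, ℝ)) (h1 : ∀ j, 0 ≤ g j) (h2 : ∑ j, g j ≤ 1)
    (h3 : ∀ i j, i ≠ j → g i * g j = 0) (h4 : 1 - η ≤ μ (∑ j, g j))
    (h5 : ∀ f ∈ F, ∀ j x y, g j x ≠ 0 → g j y ≠ 0 → |f x - f y| ≤ ε) : Good μ F ε η := by
  have h6 : ∑ j : Fin (Fintype.card ι), g ((Fintype.equivFin ι).symm j) = ∑ j, g j :=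
    Equiv.sum_comp (Fintype.equivFin ι).symm g
  refine ⟨Fintype.card ι, fun j => g ((Fintype.equivFin ι).symm j), fun j => h1 _, ?_,
    fun i j hij => h3 _ _ (fun hc => hij ((Fintype.equivFin ι).symm.injective hc)), ?_,
    fun f hf j x y => h5 f hf _ x y⟩
  · rw [h6]
    exact h2
  · rw [h6]
    exact h4

theorem sum_apply' {ι : Type} [Fintype ι] (g : ι → C(X, ℝ)) (x : X) :
    (∑ j, g j) x = ∑ j, g j x := by
  rw [ContinuousMap.coe_sum, Finset.sum_apply]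

theorem good_one (μ : C(X, ℝ) → ℝ) (hadd : ∀ f g, μ (f + g) = μ f + μ g)
    (hsmul : ∀ (r : ℝ) f, μ (r • f) = r * μ f) (hpos : ∀ f, 0 ≤ f → 0 ≤ μ f) (hone : μ 1 = 1)
    (f : C(X, ℝ)) (ε η : ℝ) (hε : 0 < ε) (hη : 0 < η) : Good μ {f} ε η := by
  obtain ⟨S, hS⟩ := exists_nat_gt (1 / η)
  have hSR : (0 : ℝ) < S := lt_trans (by positivity) hS
  have hS0 : 0 < S := by exact_mod_cast hSR
  obtain ⟨L, hL⟩ := exists_nat_gt (‖f‖ / ε + 1)
  have hfx : ∀ x, |f x / ε| ≤ ‖f‖ / ε := by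
    intro x
    rw [abs_div, abs_of_pos hε]
    have := f.norm_coe_le_norm x
    rw [Real.norm_eq_abs] at this
    exact div_le_div_of_nonneg_right this hε.le
  have hu : ∀ (q : Fin S) (x : X), -(L : ℝ) ≤ f x / ε - (q : ℕ) / (S : ℝ) ∧
      f x / ε - (q : ℕ) / (S : ℝ) < L := by
    intro q x
    have h1 := abs_le.1 (hfx x)
    have h2 : 0 ≤ ((q : ℕ) : ℝ) / (S : ℝ) := by positivity
    have h3 : ((q : ℕ) : ℝ) / (S : ℝ) ≤ 1 := by
      rw [div_le_one hSR]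
      exact_mod_cast q.2.le
    constructor <;> linarith [h1.1, h1.2]
  let g : Fin S → Fin (2 * L) → C(X, ℝ) := fun q l =>
    ⟨fun x => h (S : ℝ) ((l : ℕ) - L : ℤ) (f x / ε - (q : ℕ) / (S : ℝ)),
      (h_cont _ _).comp (by fun_prop)⟩
  have hgs : ∀ q x, (∑ l, g q l) x =
      h (S : ℝ) ⌊f x / ε - (q : ℕ) / (S : ℝ)⌋ (f x / ε - (q : ℕ) / (S : ℝ)) := by
    intro q x
    rw [sum_apply']
    exact h_sum hSR L _ (hu q x).1 (hu q x).2
  have hgs1 : ∀ q, ∑ l, g q l ≤ 1 := by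
    intro q x
    change (∑ l, g q l) x ≤ 1
    rw [hgs]
    exact h_le_one _ _ _
  have hneg : ∀ f, μ (-f) = - μ f := by
    intro f
    have h := hsmul (-1) f
    rw [neg_one_smul] at h
    rw [h]
    ring
  have hsub : ∀ f g, μ (f - g) = μ f - μ g := by
    intro f g
    rw [sub_eq_add_neg, hadd, hneg, sub_eq_add_neg]
  have hzero : μ 0 = 0 := by
    have h := hsmul 0 0
    rw [zero_smul, zero_mul] at h
    exact h
  have hsum : ∀ (D : Fin S → C(X, ℝ)), μ (∑ q, D q) = ∑ q, μ (D q) := by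
    intro D
    classical
    have : ∀ s : Finset (Fin S), μ (∑ q ∈ s, D q) = ∑ q ∈ s, μ (D q) := by
      intro s
      induction s using Finset.induction_on with
      | empty => simp [hzero]
      | insert a s ha ih => rw [Finset.sum_insert ha, Finset.sum_insert ha, hadd, ih]
    exact this _
  have hD : ∑ q, (1 - ∑ l, g q l) ≤ (1 : C(X, ℝ)) := by
    intro x
    change (∑ q, (1 - ∑ l, g q l)) x ≤ 1
    rw [sum_apply']
    by_cases hc : ∀ q : Fin S, (1 - ∑ l, g q l : C(X, ℝ)) x = 0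
    · rw [Finset.sum_eq_zero (fun q _ => hc q)]
      exact zero_le_one
    · push Not at hc
      obtain ⟨q0, hq0⟩ := hc
      rw [Finset.sum_eq_single q0]
      · rw [ContinuousMap.sub_apply, hgs]
        have := h_nonneg (S : ℝ) ⌊f x / ε - (q0 : ℕ) / (S : ℝ)⌋ (f x / ε - (q0 : ℕ) / (S : ℝ))
        change 1 - _ ≤ (1 : ℝ)
        linarith
      · intro q _ hq
        by_contra hq1
        apply hq
        have key : ∀ r : Fin S, (1 - ∑ l, g r l : C(X, ℝ)) x ≠ 0 →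
            ∃ m : ℤ, 2 * (S : ℝ) * |f x / ε - (r : ℕ) / (S : ℝ) - m| < 1 := by
          intro r hr
          rw [ContinuousMap.sub_apply, hgs] at hr
          exact h_ne_one hSR (fun hcc => hr (by rw [hcc]; exact sub_self _))
        exact one_bad _ _ _ (key q hq1) (key q0 hq0)
      · intro hc
        exact absurd (Finset.mem_univ _) hc
  have hex : ∃ q : Fin S, μ (1 - ∑ l, g q l) ≤ η := by
    by_contra hc
    push Not at hc
    have h1 : μ (∑ q, (1 - ∑ l, g q l)) ≤ 1 := by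
      have h2 := hpos _ (sub_nonneg.2 hD)
      rw [hsub, hone] at h2
      linarith
    rw [hsum] at h1
    have h3 : ∑ _q : Fin S, η ≤ ∑ q : Fin S, μ (1 - ∑ l, g q l) :=
      Finset.sum_le_sum (fun q _ => (hc q).le)
    rw [Finset.sum_const, Finset.card_univ, Fintype.card_fin, nsmul_eq_mul] at h3
    have h4 : 1 < S * η := by
      rw [div_lt_iff₀ hη] at hS
      exact hS
    linarith
  obtain ⟨q, hq⟩ := hex
  refine ⟨2 * L, g q, fun l x => h_nonneg _ _ _, hgs1 q, ?_, ?_, ?_⟩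
  · intro i j hij
    ext x
    refine h_mul hSR (fun hc => hij (Fin.ext ?_)) _
    omega
  · rw [hsub, hone] at hq
    linarith
  · intro f' hf' j x y hx hy
    rw [Finset.mem_singleton] at hf'
    rw [hf']
    have h1 := h_ne hSR (l := ((j : ℕ) - L : ℤ)) (u := f x / ε - (q : ℕ) / (S : ℝ)) hx
    have h2 := h_ne hSR (l := ((j : ℕ) - L : ℤ)) (u := f y / ε - (q : ℕ) / (S : ℝ)) hy
    have h3 : |f x / ε - f y / ε| ≤ 1 := by
      rw [abs_le]
      constructor <;> linarith [h1.1, h1.2, h2.1, h2.2]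
    rw [← sub_div, abs_div, abs_of_pos hε, div_le_one hε] at h3
    exact h3

theorem good_all (μ : C(X, ℝ) → ℝ) (hadd : ∀ f g, μ (f + g) = μ f + μ g)
    (hsmul : ∀ (r : ℝ) f, μ (r • f) = r * μ f) (hpos : ∀ f, 0 ≤ f → 0 ≤ μ f) (hone : μ 1 = 1)
    (ε : ℝ) (hε : 0 < ε) (F : Finset C(X, ℝ)) : ∀ η : ℝ, 0 < η → Good μ F ε η := by
  classical
  induction F using Finset.induction_on with
  | empty =>
    intro η hη
    refine good_of (ι := Unit) μ _ ε η (fun _ => 1) (fun _ => zero_le_one) ?_ ?_ ?_ ?_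
    · simp
    · intro i j hij
      exact absurd (Subsingleton.elim i j) hij
    · rw [Finset.univ_unique, Finset.sum_singleton, hone]
      linarith
    · intro f hf
      exact absurd hf (Finset.notMem_empty f)
  | insert f F hf ih =>
    intro η hη
    obtain ⟨J, g, g0, g1, gd, gm, go⟩ := ih (η / 2) (by positivity)
    obtain ⟨K, k, k0, k1, kd, km, ko⟩ :=
      good_one μ hadd hsmul hpos hone f ε (η / 2) hε (by positivity)
    have hs : ∑ p : Fin J × Fin K, g p.1 * k p.2 = (∑ i, g i) * (∑ j, k j) := by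
      rw [Fintype.sum_prod_type, Finset.sum_mul_sum]
    have G0 : 0 ≤ ∑ i, g i := Finset.sum_nonneg (fun i _ => g0 i)
    have K0 : 0 ≤ ∑ j, k j := Finset.sum_nonneg (fun i _ => k0 i)
    refine good_of (ι := Fin J × Fin K) μ _ ε η (fun p => g p.1 * k p.2) ?_ ?_ ?_ ?_ ?_
    · intro p x
      exact mul_nonneg (g0 p.1 x) (k0 p.2 x)
    · rw [hs]
      intro x
      change (∑ i, g i) x * (∑ j, k j) x ≤ 1
      have h1 : (∑ i, g i) x ≤ 1 := g1 x
      have h2 : (∑ j, k j) x ≤ 1 := k1 x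
      have h3 : 0 ≤ (∑ i, g i) x := G0 x
      have h4 : 0 ≤ (∑ j, k j) x := K0 x
      nlinarith
    · rintro ⟨i, j⟩ ⟨i', j'⟩ hne
      change g i * k j * (g i' * k j') = 0
      by_cases hi : i = i'
      · have hj : j ≠ j' := fun hj => hne (by rw [hi, hj])
        rw [mul_mul_mul_comm, kd j j' hj, mul_zero]
      · rw [mul_mul_mul_comm, gd i i' hi, zero_mul]
    · change 1 - η ≤ μ (∑ p : Fin J × Fin K, g p.1 * k p.2)
      rw [hs]
      have h1 : 0 ≤ (1 - ∑ i, g i) * (1 - ∑ j, k j) := by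
        intro x
        exact mul_nonneg (sub_nonneg.2 (g1 x)) (sub_nonneg.2 (k1 x))
      have h2 := hpos _ h1
      have h3 : (∑ i, g i) * (∑ j, k j) =
          (1 - ∑ i, g i) * (1 - ∑ j, k j) + ((∑ i, g i) + (∑ j, k j) + (-1 : ℝ) • 1) := by
        rw [neg_one_smul]
        ring
      rw [h3, hadd, hadd, hadd, hsmul, hone]
      linarith
    · intro f' hf' p x y hx hy
      have hx1 : g p.1 x ≠ 0 := left_ne_zero_of_mul hx
      have hx2 : k p.2 x ≠ 0 := right_ne_zero_of_mul hx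
      have hy1 : g p.1 y ≠ 0 := left_ne_zero_of_mul hy
      have hy2 : k p.2 y ≠ 0 := right_ne_zero_of_mul hy
      rw [Finset.mem_insert] at hf'
      rcases hf' with rfl | hf'
      · exact ko f' (Finset.mem_singleton_self _) p.2 x y hx2 hy2
      · exact go f' hf' p.1 x y hx1 hy1

end

end COMB

open COMB

theorem COMB_proof : ST_COMB.{v} := by
  intro X _ _ μ hadd hsmul hpos hone F ε hε
  classical
  obtain ⟨J, g, g0, g1, gd, gm, go⟩ := good_all μ hadd hsmul hpos hone ε hε F ε hε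
  refine ⟨J, g, fun f j => if hx : ∃ x, g j x ≠ 0 then f hx.choose else 0, ?_, gd, gm, ?_⟩
  · intro j
    refine ⟨g0 j, fun x => ?_⟩
    change g j x ≤ 1
    have h1 : (∑ i, g i) x ≤ 1 := g1 x
    rw [sum_apply'] at h1
    exact (Finset.single_le_sum (fun i _ => g0 i x) (Finset.mem_univ j)).trans h1
  · intro f hf j
    change |(if hx : ∃ x, g j x ≠ 0 then f hx.choose else 0)| ≤ ‖f‖ ∧
      ∀ x, g j x ≠ 0 → |f x - (if hx : ∃ x, g j x ≠ 0 then f hx.choose else 0)| ≤ ε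
    by_cases hx : ∃ x, g j x ≠ 0
    · rw [dif_pos hx]
      refine ⟨?_, fun x hgx => go f hf j x _ hgx hx.choose_spec⟩
      have := f.norm_coe_le_norm hx.choose
      rwa [Real.norm_eq_abs] at this
    · rw [dif_neg hx]
      refine ⟨by rw [abs_zero]; exact norm_nonneg _, fun x hgx => absurd ⟨x, hgx⟩ hx⟩

end Pool.Agent.Helper77.FP
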